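import Pool.Agent.KNum.Prod
import Pool.Agent.KSup.Roof

/-!
# Sums of even parts, varieties which are dominated by products: the sharp number
-/

set_option autoImplicit false

noncomputable section

namespace Pool.Agent.KNum

open Pool.Agent.ZCyc Pool.Agent.Dess Pool.Agent.TInc Pool.Agent.GT Pool.Agent.KAll Pool.Agent.KSup
open Pool.Agent.VFP (Om tt)
open scoped Classical LinearAlgebra.Projectivization

variable {k : Type} [Field k] [IsAlgClosed k] [CharZero k]

section kinds

variable {m : ℕ} {X : Set (MvPolynomial (Fin (m + 1)) k)}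

/-- If the alternating sums of products of `N` classes in `S` are zero, then so are the alternating
sums of products of `n ≥ N` classes if the first `N` are in `S`. -/
theorem alt_front (hX : Hom X) {S : Submodule ℚ (CH X Unit)} {N : ℕ}
    (h : ∀ w : Fin N → CH X Unit, (∀ j, w j ∈ S) → Alt (Ext hX N) w = 0) {n : ℕ} (hn : N ≤ n)
    (w : Fin n → CH X Unit) (hw : ∀ j : Fin n, (j : ℕ) < N → w j ∈ S) :
    Alt (Ext hX n) w = 0 := by
  choose z hz using fun j => cl1_surj (w j)
  have h1 : CUB.alt z ∈ GT.Rat X (Fin n) := by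
    refine CUB.alt_many (rsys hX) (A := S.comap (cl1 X)) (m := N) (fun z hz => ?_) z
      (Finset.univ.filter fun j : Fin n => (j : ℕ) < N) ?_ fun j hj => ?_
    · rw [← Submodule.Quotient.mk_eq_zero]
      exact (cl_alt hX z).trans (h _ fun j => hz j)
    · rw [Fin.card_filter_val_lt]
      omega
    · rw [Submodule.mem_comap, hz]
      exact hw j (Finset.mem_filter.1 hj).2
  have h2 := (cl_alt hX z).symm.trans ((Submodule.Quotient.mk_eq_zero _).2 h1)
  rw [← h2]
  congr 1
  funext j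
  exact (hz j).symm

/-- **Sums.** If the alternating sums of products of `h s + 1` classes in `S s` are zero, then so are
the alternating sums of products of `n > ∑ s, h s` classes in the sum of the subspaces. -/
theorem alt_kinds (hX : Hom X) {r : ℕ} (S : Fin r → Submodule ℚ (CH X Unit)) (h : Fin r → ℕ)
    (hS : ∀ (s : Fin r) (w : Fin (h s + 1) → CH X Unit), (∀ j, w j ∈ S s) →
      Alt (Ext hX (h s + 1)) w = 0) {n : ℕ} (hn : ∑ s, h s < n) (w : Fin n → CH X Unit)
    (hw : ∀ j, w j ∈ ⨆ s, S s) : Alt (Ext hX n) w = 0 := by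
  have hG : (⨆ s, S s) = Submodule.span ℚ (⋃ s, (S s : Set (CH X Unit))) := by
    rw [Submodule.span_iUnion]
    exact iSup_congr fun s => (Submodule.span_eq _).symm
  refine multi_span (Alt (Ext hX n)) (G := ⋃ s, (S s : Set (CH X Unit))) Finset.univ
    (fun w hw => ?_) w fun j _ => hG ▸ hw j
  have hw' : ∀ j, ∃ s, w j ∈ S s := fun j => Set.mem_iUnion.1 (hw j (Finset.mem_univ j))
  choose κ hκ using hw'
  obtain ⟨s, hs⟩ : ∃ s, h s < (Finset.univ.filter fun j => κ j = s).card := by
    by_contra hcon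
    push Not at hcon
    have h1 := Finset.card_eq_sum_card_fiberwise (s := (Finset.univ : Finset (Fin n)))
      (t := Finset.univ) (f := κ) (fun _ _ => Finset.mem_coe.2 (Finset.mem_univ _))
    have h2 : ∑ s, (Finset.univ.filter fun j => κ j = s).card ≤ ∑ s, h s :=
      Finset.sum_le_sum fun s _ => hcon s
    rw [Finset.card_univ, Fintype.card_fin] at h1
    omega
  obtain ⟨σ, hσ⟩ := exists_front (Finset.univ.filter fun j => κ j = s) (N := h s + 1) hs
  have hle : h s + 1 ≤ n := by
    have h1 := Finset.card_le_univ (Finset.univ.filter fun j => κ j = s)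
    rw [Fintype.card_fin] at h1
    omega
  have h1 := alt_front hX (hS s) hle (fun j => w (σ j)) fun j hj => by
    have h2 := (Finset.mem_filter.1 (hσ j hj)).2
    have h3 := hκ (σ j)
    rwa [h2] at h3
  rw [Alt_perm] at h1
  rcases Int.units_eq_one_or (Equiv.Perm.sign σ) with h3 | h3
  · simpa [h3] using h1
  · simpa [h3] using h1

/-- multiples of one class -/
theorem alt_single (hX : Hom X) (c : CH X Unit) (w : Fin 2 → CH X Unit)
    (hw : ∀ j, w j ∈ Submodule.span ℚ {c}) : Alt (Ext hX 2) w = 0 := by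
  refine multi_span (Alt (Ext hX 2)) (G := {c}) Finset.univ (fun w hw => ?_) w fun j _ => hw j
  have h0 : ∀ j, w j = c := fun j => hw j (Finset.mem_univ j)
  have h2 := Alt_perm (Ext hX 2) w (Equiv.swap 0 1)
  have h3 : (fun j => w (Equiv.swap (0 : Fin 2) 1 j)) = w := by
    funext j
    rw [h0, h0]
  rw [h3, Equiv.Perm.sign_swap (by decide), Units.val_neg, Units.val_one, neg_one_smul] at h2
  have h4 : (2 : ℚ) • Alt (Ext hX 2) w = 0 := by
    rw [two_smul]
    exact add_eq_zero_iff_eq_neg.2 h2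
  exact (smul_eq_zero.1 h4).resolve_left two_ne_zero

/-- from classes to cycles -/
theorem dimLE_of (hX : Hom X) {h : ℕ}
    (H : ∀ n, h < n → ∀ w : Fin n → CH X Unit, Alt (Ext hX n) w = 0) :
    DimLE (fun N => GT.Rat X (Fin N)) h := by
  intro n hn z
  change _ ∈ GT.Rat X (Fin n)
  rw [← Submodule.Quotient.mk_eq_zero]
  exact (cl_alt hX z).trans (H n hn _)

end kinds

/-- a subspace of dimension `h` and one class -/
theorem dimLE_add {m : ℕ} {X : Set (MvPolynomial (Fin (m + 1)) k)} (hX : Hom X) {h : ℕ}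
    {S : Submodule ℚ (CH X Unit)} {c₀ : CH X Unit}
    (hS : ∀ w : Fin (h + 1) → CH X Unit, (∀ j, w j ∈ S) → Alt (Ext hX (h + 1)) w = 0)
    (htop : S ⊔ Submodule.span ℚ {c₀} = ⊤) : DimLE (fun N => GT.Rat X (Fin N)) (h + 1) := by
  refine dimLE_of hX fun n hn w => ?_
  refine alt_kinds hX (r := 2) (fun s => if s = 0 then S else Submodule.span ℚ {c₀})
    (fun s => if s = 0 then h else 1) ?_ ?_ w fun j => ?_
  · intro s w hw
    fin_cases s
    · exact hS w fun j => by simpa using hw j
    · exact alt_single hX c₀ w fun j => by simpa using hw j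
  · simp [Fin.sum_univ_two]
    omega
  · have h1 : (⊤ : Submodule ℚ (CH X Unit)) ≤ ⨆ s : Fin 2, (if s = 0 then S else
        Submodule.span ℚ {c₀}) := by
      rw [← htop]
      refine sup_le ?_ ?_
      · exact le_iSup_of_le (0 : Fin 2) (by simp)
      · exact le_iSup_of_le (1 : Fin 2) (by simp)
    exact h1 trivial

section dominated

variable {n : ℕ} {Y : Set (MvPolynomial (Fin (n + 1)) k)}

/-- the images of the zero-cycles on one product -/
theorem alt_image {m : ℕ} {X : Fin m → Var k} (hY : Hom Y)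
    {Φ : (∀ a, (X a).Pts k) → (GT.Pt Y k →₀ ℚ)} (hΦ : IsCor X Y Φ) {h : ℕ}
    (hD : DimLE (fun N => KAll.Rat X N) h) (w : Fin (h + 1) → CH Y Unit)
    (hw : ∀ j, w j ∈ (⊤ : Submodule ℚ ((∀ a, (X a).Pts k) →₀ ℚ)).map (clΦ Φ)) :
    Alt (Ext hY (h + 1)) w = 0 := by
  choose z _ hzw using hw
  have h1 := IsCor.push hY hΦ (hD (h + 1) (Nat.lt_succ_self h) z)
  rw [map_sum] at h1
  rw [Alt_apply, ← h1]
  refine Finset.sum_congr rfl fun τ _ => ?_
  rw [map_zsmul, lc_ext (Ext hY (h + 1)) (fun p => cl1 Y (Φ p))]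
  congr 2
  funext j
  exact (hzw (τ j)).symm

/-- **Varieties which are dominated by products.** -/
theorem dimLE_dominated (hY : Hom Y) {r : ℕ} {m : Fin r → ℕ} (X : ∀ s, Fin (m s) → Var k)
    (h : Fin r → ℕ) (hD : ∀ s, DimLE (fun N => KAll.Rat (X s) N) (h s))
    (Φ : ∀ s, (∀ a, (X s a).Pts k) → (GT.Pt Y k →₀ ℚ)) (hΦ : ∀ s, IsCor (X s) Y (Φ s))
    (hgen : (⨆ s, Submodule.span ℚ (Set.range (Φ s))) ⊔ RatZ Y = ⊤) :
    DimLE (fun N => GT.Rat Y (Fin N)) (∑ s, h s) := by
  refine dimLE_of hY fun N hN w => ?_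
  refine alt_kinds hY (fun s => (⊤ : Submodule ℚ ((∀ a, (X s a).Pts k) →₀ ℚ)).map (clΦ (Φ s))) h
    (fun s w hw => alt_image hY (hΦ s) (hD s) w hw) hN w fun j => ?_
  obtain ⟨z, hz⟩ := cl1_surj (w j)
  have h1 : z ∈ (⨆ s, Submodule.span ℚ (Set.range (Φ s))) ⊔ RatZ Y := by
    rw [hgen]
    trivial
  have h2 : (⨆ s, Submodule.span ℚ (Set.range (Φ s))) ⊔ RatZ Y ≤
      (⨆ s, (⊤ : Submodule ℚ ((∀ a, (X s a).Pts k) →₀ ℚ)).map (clΦ (Φ s))).comap (cl1 Y) := by
    refine sup_le (iSup_le fun s => ?_) fun z hz => ?_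
    · rw [Submodule.span_le]
      rintro _ ⟨p, rfl⟩
      rw [SetLike.mem_coe, Submodule.mem_comap]
      refine Submodule.mem_iSup_of_mem s ⟨Finsupp.single p 1, trivial, ?_⟩
      unfold clΦ
      rw [Finsupp.linearCombination_single, one_smul]
    · rw [Submodule.mem_comap, mem_ratZ.1 hz]
      exact Submodule.zero_mem _
  rw [← hz]
  exact h2 h1

end dominated

end Pool.Agent.KNum
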