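import Pool.Agent.KSup.Words

/-!
# Alternating sums of blocks: the sharp number

`c` is a function on the families `y b a`, `b < N`, `a < m` (`N` blocks of `m` letters, the letter with
the number `a` is of the kind `a`). Suppose that the alternating sums of `c` over the permutations of
any `n a + 1` letters of the kind `a` are zero. Then the alternating sum of `c` over all permutations
of `N` blocks is zero, for `N > ∏ a, n a`.
-/

set_option autoImplicit false

namespace Pool.Agent.KNum

open Finset Pool.Agent.ZIso Pool.Agent.KSup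
open scoped Classical

/-- A function on the symmetric group which is killed by the antisymmetrisers of `h + 1` letters is a
combination of the matrix entries of the representation on the words with `h` letters. -/
theorem exists_matrix (N h : ℕ) :
    ∃ s : (Fin N → Fin h) × (Fin N → Fin h) → Equiv.Perm (Fin N) → ℚ,
      ∀ (T : Type) [AddCommGroup T] [Module ℚ T] (f : Equiv.Perm (Fin N) → T),
        (∀ (τ : Equiv.Perm (Fin N)) (J : Finset (Fin N)), J.card = h + 1 →
          ∑ π ∈ fixing J, ((Equiv.Perm.sign π : ℤ) : ℚ) • f (τ * π) = 0) →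
        ∀ τ, f τ = ∑ σ, (∑ e : (Fin N → Fin h) × (Fin N → Fin h),
          if e.1 ∘ ⇑τ = e.2 then s e σ else 0) • f σ := by
  -- the matrix entries
  let E : (Equiv.Perm (Fin N) → ℚ) →ₗ[ℚ] ((Fin N → Fin h) × (Fin N → Fin h) → ℚ) :=
    { toFun := fun β e => ∑ τ : Equiv.Perm (Fin N), if e.1 ∘ ⇑τ = e.2 then β τ else 0
      map_add' := fun β γ => by
        funext e
        rw [Pi.add_apply, ← Finset.sum_add_distrib]
        refine Finset.sum_congr rfl fun τ _ => ?_
        split_ifs
        · rfl
        · rw [add_zero]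
      map_smul' := fun r β => by
        funext e
        rw [Pi.smul_apply, Finset.smul_sum]
        refine Finset.sum_congr rfl fun τ _ => ?_
        split_ifs
        · rfl
        · rw [smul_zero] }
  have hE : ∀ β e, E β e = ∑ τ : Equiv.Perm (Fin N), if e.1 ∘ ⇑τ = e.2 then β τ else 0 :=
    fun _ _ => rfl
  obtain ⟨g, hg⟩ := LinearMap.exists_rightInverse_of_surjective E.rangeRestrict
    (LinearMap.range_eq_top.2 E.surjective_rangeRestrict)
  obtain ⟨s, hs⟩ := LinearMap.exists_extend g
  have hsE : ∀ β, E (s (E β)) = E β := by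
    intro β
    have h1 : s (E β) = g (E.rangeRestrict β) := by
      have := LinearMap.congr_fun hs (E.rangeRestrict β)
      simpa using this
    rw [h1]
    have h2 := LinearMap.congr_fun hg (E.rangeRestrict β)
    exact congrArg Subtype.val h2
  refine ⟨fun e => s (Pi.single e 1), fun T _ _ f hf τ => ?_⟩
  have hker : KillsTensors h fun σ => (Pi.single τ (1 : ℚ) : Equiv.Perm (Fin N) → ℚ) σ -
      s (E (Pi.single τ 1)) σ := by
    intro w w'
    rw [Finset.sum_sub_distrib, sub_eq_zero, Finset.sum_filter, Finset.sum_filter]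
    have h1 := congrFun (hsE (Pi.single τ 1)) (w, w')
    rw [hE, hE] at h1
    exact h1.symm
  have h1 := second_fundamental hf hker
  simp only [sub_smul] at h1
  rw [Finset.sum_sub_distrib, sub_eq_zero] at h1
  have h2 : ∑ σ, (Pi.single τ (1 : ℚ) : Equiv.Perm (Fin N) → ℚ) σ • f σ = f τ := by
    rw [Finset.sum_eq_single τ]
    · rw [Pi.single_eq_same, one_smul]
    · intro σ _ hσ
      rw [Pi.single_eq_of_ne hσ, zero_smul]
    · intro h
      exact absurd (Finset.mem_univ τ) h
  rw [h2] at h1
  rw [h1]
  refine Finset.sum_congr rfl fun σ _ => ?_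
  congr 1
  have h3 : E (Pi.single τ 1) = ∑ e : (Fin N → Fin h) × (Fin N → Fin h),
      (if e.1 ∘ ⇑τ = e.2 then (1 : ℚ) else 0) • (Pi.single e (1 : ℚ) : _ → ℚ) := by
    funext e
    rw [hE, Finset.sum_apply]
    have h4 : ∀ σ : Equiv.Perm (Fin N), (if e.1 ∘ ⇑σ = e.2 then
        (Pi.single τ (1 : ℚ) : Equiv.Perm (Fin N) → ℚ) σ else 0) =
        if σ = τ then (if e.1 ∘ ⇑τ = e.2 then 1 else 0) else 0 := by
      intro σ
      by_cases h : σ = τ
      · subst h
        rw [Pi.single_eq_same, if_pos rfl]
      · rw [Pi.single_eq_of_ne h, if_neg h, ite_self]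
    rw [Finset.sum_congr rfl fun σ _ => h4 σ, Finset.sum_ite_eq' Finset.univ τ]
    rw [if_pos (Finset.mem_univ τ), Finset.sum_eq_single e]
    · rw [Pi.smul_apply, Pi.single_eq_same, smul_eq_mul, mul_one]
    · intro e' _ he'
      rw [Pi.smul_apply, Pi.single_eq_of_ne (Ne.symm he'), smul_zero]
    · intro h
      exact absurd (Finset.mem_univ e) h
  rw [h3, map_sum, Finset.sum_apply]
  refine Finset.sum_congr rfl fun e _ => ?_
  rw [map_smul, Pi.smul_apply]
  split_ifs
  · rw [one_smul]
  · rw [zero_smul]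

/-- Functions of several variables. -/
theorem several {G : Type} [Fintype G] {T : Type} [AddCommGroup T] [Module ℚ T] {m : ℕ}
    (R : Fin m → G → G → ℚ) (F : (Fin m → G) → T)
    (hF : ∀ (a : Fin m) (π : Fin m → G),
      F π = ∑ ρ, R a (π a) ρ • F (Function.update π a ρ)) (π : Fin m → G) :
    F π = ∑ σ : Fin m → G, (∏ a, R a (π a) (σ a)) • F σ := by
  induction m with
  | zero =>
    rw [Finset.univ_unique, Finset.sum_singleton, Finset.univ_eq_empty, Finset.prod_empty, one_smul]
    congr 1
    exact Subsingleton.elim _ _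
  | succ m ih =>
    have h1 : F π = ∑ ρ, R 0 (π 0) ρ • F (Fin.cons ρ (Fin.tail π)) := by
      rw [hF 0 π]
      refine Finset.sum_congr rfl fun ρ _ => ?_
      congr 2
      conv_lhs => rw [← Fin.cons_self_tail π]
      rw [Fin.update_cons_zero]
    have h2 : ∀ ρ : G, F (Fin.cons ρ (Fin.tail π)) = ∑ σ : Fin m → G,
        (∏ a, R a.succ (π a.succ) (σ a)) • F (Fin.cons ρ σ) := by
      intro ρ
      refine ih (fun a => R a.succ) (fun σ => F (Fin.cons ρ σ)) (fun a σ => ?_) (Fin.tail π)
      have h3 := hF a.succ (Fin.cons ρ σ)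
      rw [Fin.cons_succ] at h3
      rw [h3]
      refine Finset.sum_congr rfl fun ρ' _ => ?_
      rw [Fin.cons_update]
    rw [h1, ← (Fin.consEquiv fun _ : Fin (m + 1) => G).sum_comp, Fintype.sum_prod_type]
    refine Finset.sum_congr rfl fun ρ _ => ?_
    rw [h2, Finset.smul_sum]
    refine Finset.sum_congr rfl fun σ _ => ?_
    rw [smul_smul, Fin.prod_univ_succ]
    rfl

/-- **Blocks of letters, the sharp number.** -/
theorem sharp_blocks {m N : ℕ} {V : Fin m → Type} {T : Type} [AddCommGroup T] [Module ℚ T]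
    (n : Fin m → ℕ) (c : (Fin N → ∀ a, V a) → T)
    (H : ∀ (a : Fin m) (J : Finset (Fin N)), J.card = n a + 1 → ∀ y : Fin N → ∀ a, V a,
      ∑ π ∈ fixing J, ((Equiv.Perm.sign π : ℤ) : ℚ) • c (rep a π y) = 0)
    (hN : ∏ a, n a < N) (y : Fin N → ∀ a, V a) :
    ∑ τ : Equiv.Perm (Fin N), ((Equiv.Perm.sign τ : ℤ) : ℚ) • c (fun b => y (τ b)) = 0 := by
  choose s hs using fun a => exists_matrix N (n a)
  let R : Fin m → Equiv.Perm (Fin N) → Equiv.Perm (Fin N) → ℚ := fun a τ σ =>
    ∑ e : (Fin N → Fin (n a)) × (Fin N → Fin (n a)), if e.1 ∘ ⇑τ = e.2 then s a e σ else 0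
  let F : (Fin m → Equiv.Perm (Fin N)) → T := fun π => c fun b a => y (π a b) a
  have hF : ∀ (a : Fin m) (π : Fin m → Equiv.Perm (Fin N)),
      F π = ∑ ρ, R a (π a) ρ • F (Function.update π a ρ) := by
    intro a π
    have h1 := hs a T (fun τ => F (Function.update π a τ)) (fun τ J hJ => by
      have h2 := H a J hJ fun b a' => y (Function.update π a τ a' b) a'
      rw [← h2]
      refine Finset.sum_congr rfl fun ρ _ => ?_
      congr 1
      refine congrArg c ?_
      funext b a'
      unfold rep
      by_cases ha : a' = a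
      · subst ha
        rw [Function.update_self, Function.update_self]
        beta_reduce
        rw [Function.update_self]
        rfl
      · rw [Function.update_of_ne ha, Function.update_of_ne ha]
        beta_reduce
        rw [Function.update_of_ne ha]) (π a)
    rw [Function.update_eq_self] at h1
    exact h1
  have key := several R F hF
  have h0 : ∀ τ : Equiv.Perm (Fin N), c (fun b => y (τ b)) = F fun _ => τ := fun τ => rfl
  rw [Finset.sum_congr rfl fun τ _ => by rw [h0 τ, key fun _ => τ, Finset.smul_sum],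
    Finset.sum_comm]
  refine Finset.sum_eq_zero fun σ _ => ?_
  rw [Finset.sum_congr rfl fun τ _ => smul_smul _ _ _, ← Finset.sum_smul]
  have h1 : ∑ τ : Equiv.Perm (Fin N), ((Equiv.Perm.sign τ : ℤ) : ℚ) * ∏ a, R a τ (σ a) = 0 := by
    have h2 : ∀ τ : Equiv.Perm (Fin N), ((Equiv.Perm.sign τ : ℤ) : ℚ) * ∏ a, R a τ (σ a) =
        ∑ e : ∀ a, (Fin N → Fin (n a)) × (Fin N → Fin (n a)), (∏ a, s a (e a) (σ a)) *
          if ∀ a, (e a).1 ∘ ⇑τ = (e a).2 then ((Equiv.Perm.sign τ : ℤ) : ℚ) else 0 := by
      intro τ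
      have h3 : ∏ a, R a τ (σ a) = ∑ e : ∀ a, (Fin N → Fin (n a)) × (Fin N → Fin (n a)),
          ∏ a, if (e a).1 ∘ ⇑τ = (e a).2 then s a (e a) (σ a) else 0 := by
        rw [Finset.prod_univ_sum, Fintype.piFinset_univ]
      rw [h3, Finset.mul_sum]
      refine Finset.sum_congr rfl fun e _ => ?_
      by_cases h : ∀ a, (e a).1 ∘ ⇑τ = (e a).2
      · rw [if_pos h, mul_comm]
        congr 1
        exact Finset.prod_congr rfl fun a _ => if_pos (h a)
      · rw [if_neg h, mul_zero]
        push Not at h
        obtain ⟨a, ha⟩ := h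
        rw [Finset.prod_eq_zero (Finset.mem_univ a) (if_neg ha), mul_zero]
    rw [Finset.sum_congr rfl fun τ _ => h2 τ, Finset.sum_comm]
    refine Finset.sum_eq_zero fun e _ => ?_
    rw [← Finset.mul_sum]
    -- two blocks with the same word
    obtain ⟨i, j, hij, hw⟩ := Fintype.exists_ne_map_eq_of_card_lt
      (fun b : Fin N => fun a : Fin m => (e a).1 b) (by simpa using hN)
    have hsw : ∀ a, (e a).1 ∘ ⇑(Equiv.swap i j) = (e a).1 := by
      intro a
      funext x
      rw [Function.comp_apply]
      rcases eq_or_ne x i with rfl | hxi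
      · rw [Equiv.swap_apply_left]
        exact (congrFun hw a).symm
      · rcases eq_or_ne x j with rfl | hxj
        · rw [Equiv.swap_apply_right]
          exact congrFun hw a
        · rw [Equiv.swap_apply_of_ne_of_ne hxi hxj]
    have h3 : ∑ τ : Equiv.Perm (Fin N), (if ∀ a, (e a).1 ∘ ⇑τ = (e a).2 then
        ((Equiv.Perm.sign τ : ℤ) : ℚ) else 0) = 0 := by
      refine Finset.sum_involution (fun τ _ => Equiv.swap i j * τ) ?_ ?_ ?_ ?_
      · intro τ _
        have h4 : (∀ a, (e a).1 ∘ ⇑(Equiv.swap i j * τ) = (e a).2) ↔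
            ∀ a, (e a).1 ∘ ⇑τ = (e a).2 := by
          refine forall_congr' fun a => ?_
          rw [Equiv.Perm.coe_mul, ← Function.comp_assoc, hsw]
        simp only [h4]
        split_ifs
        · rw [Equiv.Perm.sign_mul, Equiv.Perm.sign_swap hij]
          push_cast
          ring
        · rw [add_zero]
      · intro τ _ _ h
        have h2 : Equiv.swap i j = 1 := mul_eq_right.1 h
        exact hij (Equiv.swap_eq_one_iff.1 h2)
      · intro τ _
        exact Finset.mem_univ _
      · intro τ _
        rw [← mul_assoc, Equiv.swap_mul_self, one_mul]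
    rw [h3, mul_zero]
  rw [h1, zero_smul]

end Pool.Agent.KNum
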