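import Pool.Agent.KSup.Even

/-!
# The dimension of even zero-cycles
-/

set_option autoImplicit false

noncomputable section

namespace Pool.Agent.KAll

/-- The zero-cycles on a variety with the set `P` of points are even of dimension at most `h`: all
alternating sums of products of more than `h` zero-cycles are in the subspaces `R n` (rational
equivalence). -/
def DimLE {P : Type} (R : ∀ n, Submodule ℚ ((Fin n → P) →₀ ℚ)) (h : ℕ) : Prop :=
  ∀ n, h < n → ∀ z : Fin n → (P →₀ ℚ),
    ∑ τ : Equiv.Perm (Fin n), ((Equiv.Perm.sign τ : ℤˣ) : ℤ) • GT.ext (fun j => z (τ j)) ∈ R n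

end Pool.Agent.KAll
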