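import Pool.Agent.KNum.Blocks
import Pool.Agent.KNum.Defs
import Pool.Agent.KSup.Assem

/-!
# Products of even varieties: the sharp number
-/

set_option autoImplicit false

noncomputable section

namespace Pool.Agent.KNum

open Finset Pool.Agent.GT Pool.Agent.ZIso Pool.Agent.KSup
open scoped Classical

variable {m : ℕ} {P : Fin m → Type}
  {R1 : ∀ (a : Fin m) (n : ℕ), Submodule ℚ ((Fin n → P a) →₀ ℚ)} {n : Fin m → ℕ}

/-- blocks of zero-cycles on the factors -/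
theorem tens_mem {N : ℕ} {R : Submodule ℚ ((Fin N → ∀ a, P a) →₀ ℚ)}
    (hins : ∀ (i : Fin m) (l : ℕ) (g : Fin l ↪ Fin N) (x : Fin N → ∀ a, P a)
      (z : (Fin l → P i) →₀ ℚ), z ∈ R1 i l → Finsupp.lmapDomain ℚ ℚ (ins g i x) z ∈ R)
    (hF : ∀ (a : Fin m) (z : Fin (n a + 1) → (P a →₀ ℚ)),
      ∑ τ : Equiv.Perm (Fin (n a + 1)), ((Equiv.Perm.sign τ : ℤ) : ℚ) • ext (fun j => z (τ j)) ∈
        R1 a (n a + 1))
    (hN : ∏ a, n a < N) (y : Fin N → ∀ a, P a →₀ ℚ) :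
    ∑ τ : Equiv.Perm (Fin N), ((Equiv.Perm.sign τ : ℤ) : ℚ) • tens (fun b => y (τ b)) ∈ R := by
  have h1 := sharp_blocks (T := ((Fin N → ∀ a, P a) →₀ ℚ) ⧸ R) (V := fun a => P a →₀ ℚ) n
    (fun t => R.mkQ (tens t)) (fun a J hJ t => ?_) hN y
  · rw [← Submodule.Quotient.mk_eq_zero, ← Submodule.mkQ_apply, map_sum, ← h1]
    exact Finset.sum_congr rfl fun τ _ => map_smul _ _ _
  · let E₀ := (J.equivFinOfCardEq hJ).symm
    let g₁ : Fin (n a + 1) ↪ Fin N :=
      ⟨fun s => (E₀ s : Fin N), fun s s' h => E₀.injective (Subtype.ext h)⟩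
    have hgJ : J = Finset.univ.map g₁ := by
      ext j
      rw [Finset.mem_map]
      constructor
      · intro hj
        exact ⟨E₀.symm ⟨j, hj⟩, Finset.mem_univ _, by simp [g₁]⟩
      · rintro ⟨s, -, rfl⟩
        exact (E₀ s).2
    rw [hgJ, sum_fixing]
    have h2 := letters (R := R) (R1 := R1 a (n a + 1)) (i := a) g₁
      (fun x z hz => hins a _ g₁ x z hz) (fun τ => ((Equiv.Perm.sign τ : ℤ) : ℚ)) t
      (hF a fun s => t (g₁ s) a)
    rw [← Submodule.Quotient.mk_eq_zero, ← Submodule.mkQ_apply, map_sum] at h2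
    rw [← h2]
    refine Finset.sum_congr rfl fun τ _ => ?_
    rw [map_smul, Equiv.Perm.viaFintypeEmbedding_sign]

/-- products of zero-cycles -/
theorem dim_sum {N : ℕ} {R : Submodule ℚ ((Fin N → ∀ a, P a) →₀ ℚ)}
    (hins : ∀ (i : Fin m) (l : ℕ) (g : Fin l ↪ Fin N) (x : Fin N → ∀ a, P a)
      (z : (Fin l → P i) →₀ ℚ), z ∈ R1 i l → Finsupp.lmapDomain ℚ ℚ (ins g i x) z ∈ R)
    (hF : ∀ (a : Fin m) (z : Fin (n a + 1) → (P a →₀ ℚ)),
      ∑ τ : Equiv.Perm (Fin (n a + 1)), ((Equiv.Perm.sign τ : ℤ) : ℚ) • ext (fun j => z (τ j)) ∈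
        R1 a (n a + 1))
    (hN : ∏ a, n a < N) (z : Fin N → ((∀ a, P a) →₀ ℚ)) :
    ∑ τ : Equiv.Perm (Fin N), ((Equiv.Perm.sign τ : ℤ) : ℚ) • ext (fun b => z (τ b)) ∈ R := by
  obtain ⟨F, hF'⟩ := ext_linear (∀ a, P a) N
  let Φ : MultilinearMap ℚ (fun _ : Fin N => ((∀ a, P a) →₀ ℚ))
      (((Fin N → ∀ a, P a) →₀ ℚ) ⧸ R) :=
    ∑ π : Equiv.Perm (Fin N), ((Equiv.Perm.sign π : ℤ) : ℚ) •
      R.mkQ.compMultilinearMap (F.domDomCongr π)
  have hΦ : ∀ z, Φ z = R.mkQ (∑ π : Equiv.Perm (Fin N), ((Equiv.Perm.sign π : ℤ) : ℚ) •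
      ext (fun b => z (π b))) := by
    intro z
    rw [_root_.sum_apply, map_sum]
    refine Finset.sum_congr rfl fun π _ => ?_
    rw [_root_.smul_apply, LinearMap.compMultilinearMap_apply,
      MultilinearMap.domDomCongr_apply, hF', map_smul]
  rw [← Submodule.Quotient.mk_eq_zero, ← Submodule.mkQ_apply, ← hΦ]
  refine ml_span Φ (Set.range fun x : ∀ a, P a => Finsupp.single x (1 : ℚ)) (fun z hz => ?_) z
    fun j => ?_
  · choose x hx using hz
    have hz' : z = fun b => prodc fun a => Finsupp.single (x b a) (1 : ℚ) := by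
      funext b
      rw [prodc_single]
      exact (hx b).symm
    rw [hΦ, hz', Submodule.mkQ_apply, Submodule.Quotient.mk_eq_zero]
    exact tens_mem hins hF hN fun b a => Finsupp.single (x b a) (1 : ℚ)
  · rw [← Finsupp.sum_single (z j)]
    refine Submodule.sum_mem _ fun x _ => ?_
    have h2 : Finsupp.single x (z j x) = z j x • Finsupp.single x (1 : ℚ) := by
      rw [Finsupp.smul_single, smul_eq_mul, mul_one]
    rw [h2]
    exact Submodule.smul_mem _ _ (Submodule.subset_span ⟨x, rfl⟩)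

/-- **Products.** The dimension of the zero-cycles on a product of even varieties is at most the
product of the dimensions. -/
theorem dimLE_product {k : Type} [Field k] {m : ℕ} (X : Fin m → KAll.Var k)
    (hB : ∀ a, HasBase (X a)) (h : Fin m → ℕ) (hX : ∀ a, KAll.DimLE (KSup.R1 (X a)) (h a)) :
    KAll.DimLE (fun N => KAll.Rat X N) (∏ a, h a) := by
  intro N hN z
  have h1 := dim_sum (P := fun a => (X a).Pts k) (R1 := fun a N => KSup.R1 (X a) N) (n := h)
    (N := N) (R := KAll.Rat X N) (fun i l g x z hz => ins_mem hB g i x hz) (fun a z => by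
      have h6 := hX a (h a + 1) (Nat.lt_succ_self _) z
      have h7 : ∀ τ : Equiv.Perm (Fin (h a + 1)), ((Equiv.Perm.sign τ : ℤˣ) : ℤ) •
          GT.ext (fun j => z (τ j)) = ((Equiv.Perm.sign τ : ℤ) : ℚ) •
          GT.ext (fun j => z (τ j)) := fun τ => by
        rw [Int.cast_smul_eq_zsmul]
      rwa [Finset.sum_congr rfl fun τ _ => h7 τ] at h6) hN z
  have h7 : ∀ τ : Equiv.Perm (Fin N), ((Equiv.Perm.sign τ : ℤˣ) : ℤ) •
      GT.ext (fun j => z (τ j)) = ((Equiv.Perm.sign τ : ℤ) : ℚ) •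
      GT.ext (fun j => z (τ j)) := fun τ => by
    rw [Int.cast_smul_eq_zsmul]
  rwa [Finset.sum_congr rfl fun τ _ => h7 τ]

end Pool.Agent.KNum
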